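import Pool.Agent.H625R3.PC1

set_option autoImplicit false

/-!
# Arrays with `n + m - 2` columns, `n` even: a local Steiner system

`x0` is a fixed point of the array, `F ∪ V ∪ {z, g}` the set of the columns. We consider the points
with `C z x = a ≠ C z x0` and `C g x = Q ≠ C g x0` which agree with `x0` on `F`.
-/

namespace Pool.Agent.J6H77.VS

open Pool.Agent.H430R2.PermCubes Finset

variable {m n k : ℕ} {C : Fin k → (Fin m → Fin n) → Fin n}

/-- `x` agrees with `x0` on `F` and `T`, and has the values `a`, `Q` at `z`, `g` -/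
def Ag (C : Fin k → (Fin m → Fin n) → Fin n) (x0 : Fin m → Fin n) (F : Finset (Fin k))
    (z g : Fin k) (a Q : Fin n) (T : Finset (Fin k)) (x : Fin m → Fin n) : Prop :=
  (∀ j ∈ F, C j x = C j x0) ∧ (∀ j ∈ T, C j x = C j x0) ∧ C z x = a ∧ C g x = Q

/-- the agreement with `x0` on `V` of the points which agree on `T` is exactly `T` -/
def Unc (C : Fin k → (Fin m → Fin n) → Fin n) (x0 : Fin m → Fin n) (F V : Finset (Fin k))
    (z g : Fin k) (a Q : Fin n) (T : Finset (Fin k)) : Prop :=
  ∀ x, Ag C x0 F z g a Q T x → ∀ j ∈ V, C j x = C j x0 → j ∈ T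

/-- the situation -/
structure Su (C : Fin k → (Fin m → Fin n) → Fin n) (x0 : Fin m → Fin n) (F V : Finset (Fin k))
    (z g : Fin k) (a : Fin n) (t : ℕ) : Prop where
  arr : IsArray m n k C
  zF : z ∉ F
  gF : g ∉ F
  zV : z ∉ V
  gV : g ∉ V
  zg : z ≠ g
  FV : Disjoint F V
  cF : F.card + t + 2 = m
  cV : V.card + 2 = n + t
  az : a ≠ C z x0
  ev : n % 2 = 0
  t1 : 1 ≤ t

variable {x0 : Fin m → Fin n} {F V : Finset (Fin k)} {z g : Fin k} {a Q : Fin n} {t : ℕ}

/-- the columns in `F ∪ T ∪ {z, g}` -/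
theorem Su.card4 (s : Su C x0 F V z g a t) {T : Finset (Fin k)} (hT : T ⊆ V) :
    (insert z (insert g (F ∪ T))).card = F.card + T.card + 2 := by
  have h1 : (F ∪ T).card = F.card + T.card :=
    card_union_of_disjoint (s.FV.mono_right hT)
  have h2 : g ∉ F ∪ T := fun h => (mem_union.1 h).elim s.gF fun h => s.gV (hT h)
  have h3 : z ∉ insert g (F ∪ T) := by
    intro h
    rcases mem_insert.1 h with h | h
    · exact s.zg h
    · exact (mem_union.1 h).elim s.zF fun h => s.zV (hT h)
  rw [card_insert_of_notMem h3, card_insert_of_notMem h2, h1]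

theorem Su.ex (s : Su C x0 F V z g a t) (Q : Fin n) {T : Finset (Fin k)} (hT : T ⊆ V)
    (hc : T.card = t) : ∃ x, Ag C x0 F z g a Q T x := by
  obtain ⟨x, hx⟩ := s.arr.exists_point (insert z (insert g (F ∪ T)))
    (by rw [s.card4 hT, hc]; have := s.cF; omega)
    (fun j => if j = z then a else if j = g then Q else C j x0)
  have key : ∀ j, j ∈ F ∪ T → C j x = C j x0 := by
    intro j hj
    have hjz : j ≠ z := by
      rintro rfl
      exact (mem_union.1 hj).elim s.zF fun h => s.zV (hT h)
    have hjg : j ≠ g := by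
      rintro rfl
      exact (mem_union.1 hj).elim s.gF fun h => s.gV (hT h)
    have := hx j (mem_insert_of_mem (mem_insert_of_mem hj))
    rwa [if_neg hjz, if_neg hjg] at this
  refine ⟨x, fun j hj => key j (mem_union_left _ hj), fun j hj => key j (mem_union_right _ hj),
    ?_, ?_⟩
  · have := hx z (mem_insert_self _ _)
    rwa [if_pos rfl] at this
  · have := hx g (mem_insert_of_mem (mem_insert_self _ _))
    rwa [if_neg s.zg.symm, if_pos rfl] at this

/-- two points with the same `Q` which agree with `x0` on a set of `t` elements are equal -/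
theorem Su.eq (s : Su C x0 F V z g a t) {T : Finset (Fin k)} (hT : T ⊆ V) (hc : t ≤ T.card)
    {x y : Fin m → Fin n} (hx : Ag C x0 F z g a Q T x) (hy : Ag C x0 F z g a Q T y) : x = y := by
  refine s.arr.eq_of_agree (insert z (insert g (F ∪ T)))
    (by rw [s.card4 hT]; have := s.cF; omega) ?_
  intro i hi
  rcases mem_insert.1 hi with rfl | hi
  · rw [hx.2.2.1, hy.2.2.1]
  rcases mem_insert.1 hi with rfl | hi
  · rw [hx.2.2.2, hy.2.2.2]
  rcases mem_union.1 hi with hi | hi
  · rw [hx.1 i hi, hy.1 i hi]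
  · rw [hx.2.1 i hi, hy.2.1 i hi]

/-- a point with `C z x = a` agrees with `x0` on less than `m` columns -/
theorem Su.lt (s : Su C x0 F V z g a t) {T : Finset (Fin k)} (hT : T ⊆ V)
    {x : Fin m → Fin n} (hx : Ag C x0 F z g a Q T x) : T.card ≤ t + 1 := by
  by_contra hcon
  apply s.az
  rw [← hx.2.2.1]
  congr 1
  refine s.arr.eq_of_agree (F ∪ T) ?_ ?_
  · rw [card_union_of_disjoint (s.FV.mono_right hT)]
    have := s.cF; omega
  · intro i hi
    rcases mem_union.1 hi with hi | hi
    · exact hx.1 i hi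
    · exact hx.2.1 i hi

/-- a point with `C z x = a` which agrees with `x0` on `t + 1` columns of `V` disagrees at `g` -/
theorem Su.ne (s : Su C x0 F V z g a t) {T : Finset (Fin k)} (hT : T ⊆ V)
    (hc : t + 1 ≤ T.card) {x : Fin m → Fin n} (hx : Ag C x0 F z g a Q T x) : Q ≠ C g x0 := by
  intro hQ
  apply s.az
  rw [← hx.2.2.1]
  congr 1
  have h2 : g ∉ F ∪ T := fun h => (mem_union.1 h).elim s.gF fun h => s.gV (hT h)
  refine s.arr.eq_of_agree (insert g (F ∪ T)) ?_ ?_
  · rw [card_insert_of_notMem h2, card_union_of_disjoint (s.FV.mono_right hT)]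
    have := s.cF; omega
  · intro i hi
    rcases mem_insert.1 hi with rfl | hi
    · rw [hx.2.2.2, hQ]
    rcases mem_union.1 hi with hi | hi
    · exact hx.1 i hi
    · exact hx.2.1 i hi

/-- for every `t`-subset and every further column there is a point with `C z x = a` -/
theorem Su.ex' (s : Su C x0 F V z g a t) {T : Finset (Fin k)} (hT : T ⊆ V)
    (hc : T.card = t + 1) : ∃ Q, ∃ x, Ag C x0 F z g a Q T x := by
  have h1 : (F ∪ T).card = F.card + T.card :=
    card_union_of_disjoint (s.FV.mono_right hT)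
  have h3 : z ∉ F ∪ T := fun h => (mem_union.1 h).elim s.zF fun h => s.zV (hT h)
  obtain ⟨x, hx⟩ := s.arr.exists_point (insert z (F ∪ T))
    (by rw [card_insert_of_notMem h3, h1, hc]; have := s.cF; omega)
    (fun j => if j = z then a else C j x0)
  have key : ∀ j, j ∈ F ∪ T → C j x = C j x0 := by
    intro j hj
    have hjz : j ≠ z := by
      rintro rfl
      exact h3 hj
    have := hx j (mem_insert_of_mem hj)
    rwa [if_neg hjz] at this
  refine ⟨C g x, x, fun j hj => key j (mem_union_left _ hj),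
    fun j hj => key j (mem_union_right _ hj), ?_, rfl⟩
  have := hx z (mem_insert_self _ _)
  rwa [if_pos rfl] at this

theorem Ag.mono {T T' : Finset (Fin k)} {x : Fin m → Fin n} (hx : Ag C x0 F z g a Q T x)
    (h : T' ⊆ T) : Ag C x0 F z g a Q T' x :=
  ⟨hx.1, fun j hj => hx.2.1 j (h hj), hx.2.2.1, hx.2.2.2⟩

theorem Ag.insert {T : Finset (Fin k)} {x : Fin m → Fin n} (hx : Ag C x0 F z g a Q T x)
    {j : Fin k} (hj : C j x = C j x0) : Ag C x0 F z g a Q (insert j T) x :=
  ⟨hx.1, fun i hi => (mem_insert.1 hi).elim (fun h => h ▸ hj) (hx.2.1 i), hx.2.2.1, hx.2.2.2⟩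

/-- every `t`-subset is uncovered for at most one value `Q` -/
theorem Su.unc_unique (s : Su C x0 F V z g a t) {T : Finset (Fin k)} (hT : T ⊆ V)
    (hc : T.card = t) {Q Q' : Fin n} (hQ : Q ≠ C g x0) (hQ' : Q' ≠ C g x0)
    (hu : Unc C x0 F V z g a Q T) (hu' : Unc C x0 F V z g a Q' T) : Q = Q' := by
  by_contra hne
  have hex : ∀ l ∈ V \ T, ∃ R : Fin n, ∃ x, Ag C x0 F z g a R (insert l T) x := by
    intro l hl
    obtain ⟨hlV, hlT⟩ := mem_sdiff.1 hl
    exact s.ex' (insert_subset hlV hT) (by rw [card_insert_of_notMem hlT, hc])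
  have hn : Nonempty (Fin n) := ⟨a⟩
  choose! R hR using hex
  have hcard : (V \ T).card ≤ (((univ.erase (C g x0)).erase Q).erase Q').card := by
    refine card_le_card_of_injOn R ?_ ?_
    · intro l hl
      have hl : l ∈ V \ T := hl
      obtain ⟨x, hx⟩ := hR l hl
      obtain ⟨hlV, hlT⟩ := mem_sdiff.1 hl
      have e1 : R l ≠ C g x0 := s.ne (insert_subset hlV hT)
        (by rw [card_insert_of_notMem hlT, hc]) hx
      have e2 : ∀ P, Unc C x0 F V z g a P T → R l ≠ P := by
        rintro P hP rfl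
        exact hlT (hP x (hx.mono (subset_insert _ _)) l hlV (hx.2.1 l (mem_insert_self _ _)))
      rw [mem_coe, mem_erase, mem_erase, mem_erase]
      exact ⟨e2 _ hu', e2 _ hu, e1, mem_univ _⟩
    · intro l hl l' hl' he
      have hl : l ∈ V \ T := hl
      have hl' : l' ∈ V \ T := hl'
      obtain ⟨x, hx⟩ := hR l hl
      obtain ⟨y, hy⟩ := hR l' hl'
      obtain ⟨hlV, hlT⟩ := mem_sdiff.1 hl
      obtain ⟨hlV', hlT'⟩ := mem_sdiff.1 hl'
      rw [← he] at hy
      have exy : x = y := s.eq hT hc.ge (hx.mono (subset_insert _ _)) (hy.mono (subset_insert _ _))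
      subst exy
      by_contra hll
      have h1 := s.lt (insert_subset hlV' (insert_subset hlV hT))
        (hx.insert (hy.2.1 l' (mem_insert_self _ _)))
      rw [card_insert_of_notMem, card_insert_of_notMem hlT, hc] at h1
      · omega
      · intro h
        rcases mem_insert.1 h with h | h
        · exact hll h.symm
        · exact hlT' h
  have h1 : (V \ T).card = V.card - T.card := card_sdiff_of_subset hT
  have h2 : (((univ.erase (C g x0)).erase Q).erase Q').card = n - 3 := by
    rw [card_erase_of_mem, card_erase_of_mem, card_erase_of_mem (mem_univ _), card_univ,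
      Fintype.card_fin]
    · omega
    · exact mem_erase.2 ⟨hQ, mem_univ _⟩
    · exact mem_erase.2 ⟨Ne.symm hne, mem_erase.2 ⟨hQ', mem_univ _⟩⟩
  have h3 : 3 ≤ n := by
    have h4 : ({C g x0, Q, Q'} : Finset (Fin n)).card ≤ Fintype.card (Fin n) := card_le_univ _
    rw [Fintype.card_fin, card_insert_of_notMem, card_pair hne] at h4
    · exact h4
    · simp only [mem_insert, mem_singleton, not_or]
      exact ⟨hQ.symm, hQ'.symm⟩
  have h4 := s.cV
  rw [h1, h2, hc] at hcard
  omega

/-- for every `(t - 1)`-subset and every value `Q` some extension is uncovered -/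
theorem Su.unc_exists (s : Su C x0 F V z g a t) {S : Finset (Fin k)} (hS : S ⊆ V)
    (hc : S.card + 1 = t) {Q : Fin n} (hQ : Q ≠ C g x0) :
    ∃ l ∈ V \ S, Unc C x0 F V z g a Q (insert l S) := by
  classical
  by_contra hcon
  push Not at hcon
  -- the partner
  have hex : ∀ l ∈ V \ S, ∃ j ∈ V \ S, j ≠ l ∧
      ∃ x, Ag C x0 F z g a Q (insert j (insert l S)) x := by
    intro l hl
    have h1 := hcon l hl
    unfold Unc at h1
    push Not at h1
    obtain ⟨x, hx, j, hjV, hj, hjn⟩ := h1
    rw [mem_insert, not_or] at hjn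
    exact ⟨j, mem_sdiff.2 ⟨hjV, hjn.2⟩, hjn.1, x, hx.insert hj⟩
  choose! p hp1 hp2 hp3 using hex
  have hinv : ∀ l ∈ V \ S, p (p l) = l := by
    intro l hl
    obtain ⟨x, hx⟩ := hp3 l hl
    obtain ⟨y, hy⟩ := hp3 (p l) (hp1 l hl)
    obtain ⟨hlV, hlS⟩ := mem_sdiff.1 hl
    obtain ⟨hpV, hpS⟩ := mem_sdiff.1 (hp1 l hl)
    obtain ⟨hppV, hppS⟩ := mem_sdiff.1 (hp1 (p l) (hp1 l hl))
    have hxy : x = y := by
      refine s.eq (T := insert (p l) S) (insert_subset hpV hS)
        (by rw [card_insert_of_notMem hpS]; omega) (hx.mono ?_) (hy.mono (subset_insert _ _))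
      intro i hi
      rcases mem_insert.1 hi with rfl | hi
      · exact mem_insert_self _ _
      · exact mem_insert_of_mem (mem_insert_of_mem hi)
    subst hxy
    by_contra hne
    have h1 := s.lt (insert_subset hppV (insert_subset hpV (insert_subset hlV hS)))
      (hx.insert (hy.2.1 (p (p l)) (mem_insert_self _ _)))
    rw [card_insert_of_notMem, card_insert_of_notMem, card_insert_of_notMem hlS] at h1
    · omega
    · intro h
      rcases mem_insert.1 h with h | h
      · exact hp2 l hl h
      · exact hpS h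
    · intro h
      rcases mem_insert.1 h with h | h
      · exact hp2 (p l) (hp1 l hl) h
      rcases mem_insert.1 h with h | h
      · exact hne h
      · exact hppS h
  have h1 : ∑ l ∈ V \ S, (1 : ZMod 2) = 0 := by
    refine sum_involution (fun l _ => p l) ?_ ?_ ?_ ?_
    · intro l hl; decide
    · intro l hl _; exact hp2 l hl
    · intro l hl; exact hp1 l hl
    · intro l hl; exact hinv l hl
  rw [sum_const, nsmul_eq_mul, mul_one, ZMod.natCast_eq_zero_iff] at h1
  have h2 : (V \ S).card = V.card - S.card := card_sdiff_of_subset hS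
  have h3 := s.cV
  have h4 := s.ev
  have h5 : 1 ≤ n := by have := a.2; omega
  rw [h2] at h1
  omega

/-- for every `(t - 1)`-subset and every value `Q` exactly one extension is uncovered -/
theorem Su.unc_one (s : Su C x0 F V z g a t) {S : Finset (Fin k)} (hS : S ⊆ V)
    (hc : S.card + 1 = t) {Q : Fin n} (hQ : Q ≠ C g x0) {l l' : Fin k} (hl : l ∈ V \ S)
    (hl' : l' ∈ V \ S) (hu : Unc C x0 F V z g a Q (insert l S))
    (hu' : Unc C x0 F V z g a Q (insert l' S)) : l = l' := by
  classical
  have hex : ∀ P ∈ (univ.erase (C g x0) : Finset (Fin n)), ∃ l ∈ V \ S,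
      Unc C x0 F V z g a P (insert l S) := fun P hP =>
    s.unc_exists hS hc (ne_of_mem_erase hP)
  have hn : Nonempty (Fin k) := ⟨z⟩
  choose! lam h1 h2 using hex
  have hcs : ∀ l ∈ V \ S, (insert l S).card = t := by
    intro l hl
    rw [card_insert_of_notMem (mem_sdiff.1 hl).2]; exact hc
  have hinj : Set.InjOn lam (univ.erase (C g x0) : Finset (Fin n)) := by
    intro P hP P' hP' he
    have hP := mem_coe.1 hP
    have hP' := mem_coe.1 hP'
    refine s.unc_unique (T := insert (lam P) S) (insert_subset (mem_sdiff.1 (h1 P hP)).1 hS)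
      (hcs _ (h1 P hP)) (ne_of_mem_erase hP) (ne_of_mem_erase hP') (h2 P hP) ?_
    rw [he]
    exact h2 P' hP'
  have himg : (univ.erase (C g x0) : Finset (Fin n)).image lam = V \ S := by
    refine eq_of_subset_of_card_le ?_ ?_
    · intro l hl
      obtain ⟨P, hP, rfl⟩ := mem_image.1 hl
      exact h1 P hP
    · rw [card_image_of_injOn hinj, card_erase_of_mem (mem_univ _), card_univ, Fintype.card_fin,
        card_sdiff_of_subset hS]
      have h3 := s.cV
      omega
  have hall : ∀ l ∈ V \ S, Unc C x0 F V z g a Q (insert l S) → l = lam Q := by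
    intro l hl hul
    rw [← himg] at hl
    obtain ⟨P, hP, rfl⟩ := mem_image.1 hl
    have : Q = P := s.unc_unique (T := insert (lam P) S)
      (insert_subset (mem_sdiff.1 (h1 P hP)).1 hS) (hcs _ (h1 P hP)) hQ (ne_of_mem_erase hP)
      hul (h2 P hP)
    rw [this]
  rw [hall l hl hu, hall l' hl' hu']

end Pool.Agent.J6H77.VS
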