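import Pool.Agent.J6H77.VS.Loc

set_option autoImplicit false

/-!
# Arrays with `n + m - 2` columns, `n` even: the Steiner system and the upper bound
-/

namespace Pool.Agent.J6H77.VS

open Pool.Agent.H430R2.PermCubes Finset

variable {m n k : ℕ} {C : Fin k → (Fin m → Fin n) → Fin n}
variable {x0 : Fin m → Fin n} {F V : Finset (Fin k)} {z g : Fin k} {a Q : Fin n} {t : ℕ}

/-- the blocks; the column `g` is the additional point -/
def Blk (C : Fin k → (Fin m → Fin n) → Fin n) (x0 : Fin m → Fin n) (F V : Finset (Fin k))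
    (z g : Fin k) (a Q : Fin n) (t : ℕ) (X : Finset (Fin k)) : Prop :=
  X ⊆ insert g V ∧ X.card = t + 1 ∧
    ((g ∉ X ∧ ∃ x, Ag C x0 F z g a Q X x) ∨ (g ∈ X ∧ Unc C x0 F V z g a Q (X.erase g)))

theorem Su.blk_exists (s : Su C x0 F V z g a t) (hQ : Q ≠ C g x0) {T : Finset (Fin k)}
    (hT : T ⊆ insert g V) (hc : T.card = t) : ∃ X, Blk C x0 F V z g a Q t X ∧ T ⊆ X := by
  by_cases hg : g ∈ T
  · have hS : T.erase g ⊆ V := by
      intro j hj
      obtain ⟨h1, h2⟩ := mem_erase.1 hj
      exact (mem_insert.1 (hT h2)).resolve_left h1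
    have hSc : (T.erase g).card + 1 = t := by rw [card_erase_add_one hg, hc]
    obtain ⟨l, hl, hu⟩ := s.unc_exists hS hSc hQ
    obtain ⟨hlV, hlS⟩ := mem_sdiff.1 hl
    have hlg : l ≠ g := fun h => s.gV (h ▸ hlV)
    have hlT : l ∉ T := fun h => hlS (mem_erase.2 ⟨hlg, h⟩)
    refine ⟨insert l T, ⟨insert_subset (mem_insert_of_mem hlV) hT,
      by rw [card_insert_of_notMem hlT, hc], Or.inr ⟨mem_insert_of_mem hg, ?_⟩⟩,
      subset_insert _ _⟩
    rw [erase_insert_of_ne hlg]
    exact hu
  · have hTV : T ⊆ V := fun j hj =>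
      (mem_insert.1 (hT hj)).resolve_left (fun h => hg (h ▸ hj))
    by_cases hu : Unc C x0 F V z g a Q T
    · refine ⟨insert g T, ⟨insert_subset (mem_insert_self _ _) hT,
        by rw [card_insert_of_notMem hg, hc], Or.inr ⟨mem_insert_self _ _, ?_⟩⟩,
        subset_insert _ _⟩
      rw [erase_insert hg]
      exact hu
    · unfold Unc at hu
      push Not at hu
      obtain ⟨x, hx, j, hjV, hj, hjT⟩ := hu
      refine ⟨insert j T, ⟨insert_subset (mem_insert_of_mem hjV) hT,
        by rw [card_insert_of_notMem hjT, hc], Or.inl ⟨?_, x, hx.insert hj⟩⟩,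
        subset_insert _ _⟩
      intro h
      rcases mem_insert.1 h with h | h
      · exact s.gV (h ▸ hjV)
      · exact hg h

theorem Su.blk_unique (s : Su C x0 F V z g a t) (hQ : Q ≠ C g x0) {T : Finset (Fin k)}
    (hc : T.card = t) {X Y : Finset (Fin k)} (hX : Blk C x0 F V z g a Q t X)
    (hY : Blk C x0 F V z g a Q t Y) (hTX : T ⊆ X) (hTY : T ⊆ Y) : X = Y := by
  obtain ⟨hXV, hXc, hX⟩ := hX
  obtain ⟨hYV, hYc, hY⟩ := hY
  obtain ⟨i, hi, rfl⟩ := exists_eq_insert_iff.2 ⟨hTX, by omega⟩
  obtain ⟨j, hj, rfl⟩ := exists_eq_insert_iff.2 ⟨hTY, by omega⟩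
  have hT : T ⊆ insert g V := hTX.trans hXV
  by_cases hg : g ∈ T
  · have hS : T.erase g ⊆ V := by
      intro j hj
      obtain ⟨h1, h2⟩ := mem_erase.1 hj
      exact (mem_insert.1 (hT h2)).resolve_left h1
    have hSc : (T.erase g).card + 1 = t := by rw [card_erase_add_one hg, hc]
    have hig : i ≠ g := fun h => hi (h ▸ hg)
    have hjg : j ≠ g := fun h => hj (h ▸ hg)
    have hiV : i ∈ V := (mem_insert.1 (hXV (mem_insert_self _ _))).resolve_left hig
    have hjV : j ∈ V := (mem_insert.1 (hYV (mem_insert_self _ _))).resolve_left hjg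
    have h1 : Unc C x0 F V z g a Q ((insert i T).erase g) := by
      rcases hX with h | h
      · exact absurd (mem_insert_of_mem hg) h.1
      · exact h.2
    have h2 : Unc C x0 F V z g a Q ((insert j T).erase g) := by
      rcases hY with h | h
      · exact absurd (mem_insert_of_mem hg) h.1
      · exact h.2
    rw [erase_insert_of_ne hig] at h1
    rw [erase_insert_of_ne hjg] at h2
    rw [s.unc_one hS hSc hQ (mem_sdiff.2 ⟨hiV, fun h => hi (mem_of_mem_erase h)⟩)
      (mem_sdiff.2 ⟨hjV, fun h => hj (mem_of_mem_erase h)⟩) h1 h2]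
  · have hTV : T ⊆ V := fun j hj =>
      (mem_insert.1 (hT hj)).resolve_left (fun h => hg (h ▸ hj))
    have key : ∀ i j : Fin k, i ∉ T → insert i T ⊆ insert g V → g ∉ insert i T →
        g ∈ insert j T → (∃ x, Ag C x0 F z g a Q (insert i T) x) →
        Unc C x0 F V z g a Q ((insert j T).erase g) → False := by
      rintro i j hi hXV hgi hgj ⟨x, hx⟩ hu
      have hjg : j = g := ((mem_insert.1 hgj).resolve_right hg).symm
      rw [hjg, erase_insert hg] at hu
      have hiV : i ∈ V := (mem_insert.1 (hXV (mem_insert_self _ _))).resolve_left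
        (fun h => hgi (h ▸ mem_insert_self _ _))
      exact hi (hu x (hx.mono (subset_insert _ _)) i hiV (hx.2.1 i (mem_insert_self _ _)))
    rcases hX with ⟨hgX, x, hx⟩ | ⟨hgX, hu⟩ <;> rcases hY with ⟨hgY, y, hy⟩ | ⟨hgY, hu'⟩
    · have hiV : i ∈ V := (mem_insert.1 (hXV (mem_insert_self _ _))).resolve_left
        (fun h => hgX (h ▸ mem_insert_self _ _))
      have hjV : j ∈ V := (mem_insert.1 (hYV (mem_insert_self _ _))).resolve_left
        (fun h => hgY (h ▸ mem_insert_self _ _))
      have hxy : x = y := s.eq hTV hc.ge (hx.mono (subset_insert _ _))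
        (hy.mono (subset_insert _ _))
      subst hxy
      by_contra hne
      have hij : j ≠ i := fun h => hne (by rw [h])
      have h1 := s.lt (insert_subset hjV (insert_subset hiV hTV))
        (hx.insert (hy.2.1 j (mem_insert_self _ _)))
      rw [card_insert_of_notMem, card_insert_of_notMem hi, hc] at h1
      · omega
      · intro h
        rcases mem_insert.1 h with h | h
        · exact hij h
        · exact hj h
    · exact (key i j hi hXV hgX hgY ⟨x, hx⟩ hu').elim
    · exact (key j i hj hYV hgY hgX ⟨y, hy⟩ hu).elim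
    · rw [← (mem_insert.1 hgX).resolve_right hg, ← (mem_insert.1 hgY).resolve_right hg]

/-- the Steiner system -/
theorem Su.dvd (s : Su C x0 F V z g a t) (hQ : Q ≠ C g x0) :
    (t + 1) ∣ (n + t - 1).choose t := by
  classical
  have hex : ∀ T ∈ (insert g V).powersetCard t, ∃ X, Blk C x0 F V z g a Q t X ∧ T ⊆ X :=
    fun T hT => s.blk_exists hQ (mem_powersetCard.1 hT).1 (mem_powersetCard.1 hT).2
  choose! r hr1 hr2 using hex
  have h := Pool.Agent.H625R3.PC.steiner_dvd (insert g V) t r
    (fun T hT => ⟨(hr1 T hT).1, (hr1 T hT).2.1, hr2 T hT⟩)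
    (fun T hT T' hT' hs => s.blk_unique hQ (mem_powersetCard.1 hT').2 (hr1 T' hT') (hr1 T hT)
      (hr2 T' hT') hs)
  have h1 : (insert g V).card = n + t - 1 := by
    rw [card_insert_of_notMem s.gV]
    have := s.cV
    omega
  rwa [h1] at h

/-- no array with `n + m - 2` columns if `n` is even and a prime `p < m` divides `n - 1` -/
theorem no_prime_even (h : IsArray m n k C) (hev : n % 2 = 0) (hn : 2 ≤ n) {p : ℕ}
    (hp : p.Prime) (hpn : p ∣ n - 1) (hpm : p + 1 ≤ m) (hk : k + 2 = n + m) : False := by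
  classical
  have hp2 := hp.two_le
  have h0 : (0 : ℕ) < n := by omega
  let x0 : Fin m → Fin n := fun _ => ⟨0, h0⟩
  have : Nontrivial (Fin n) := Fin.nontrivial_iff_two_le.2 hn
  let z : Fin k := ⟨0, by omega⟩
  let g : Fin k := ⟨1, by omega⟩
  have hzg : z ≠ g := by
    intro h'
    have := congrArg Fin.val h'
    simp [z, g] at this
  obtain ⟨a, ha⟩ := exists_ne (C z x0)
  obtain ⟨Q, hQ⟩ := exists_ne (C g x0)
  have hU : (({z, g} : Finset (Fin k))ᶜ).card = k - 2 := by
    rw [card_compl, Fintype.card_fin, card_pair hzg]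
  obtain ⟨F, hF, hFc⟩ := exists_subset_card_eq
    (show m - p - 1 ≤ (({z, g} : Finset (Fin k))ᶜ).card by rw [hU]; omega)
  set V := ({z, g} : Finset (Fin k))ᶜ \ F with hV
  have hVc : V.card = k - 2 - (m - p - 1) := by
    rw [hV, card_sdiff_of_subset hF, hU, hFc]
  have s : Su C x0 F V z g a (p - 1) :=
    { arr := h
      zF := fun hz => by
        have := hF hz
        simp at this
      gF := fun hz => by
        have := hF hz
        simp at this
      zV := fun hz => by
        have := (mem_sdiff.1 hz).1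
        simp at this
      gV := fun hz => by
        have := (mem_sdiff.1 hz).1
        simp at this
      zg := hzg
      FV := disjoint_sdiff
      cF := by rw [hFc]; omega
      cV := by rw [hVc]; omega
      az := ha
      ev := hev
      t1 := by omega }
  have hd := s.dvd hQ
  have e1 : n + (p - 1) - 1 = n + p - 2 := by omega
  rw [e1, Nat.sub_add_cancel hp.one_le] at hd
  exact Pool.Agent.H72R3.VC.choose_not_dvd hp hn hpn hd

/-- **Upper bound.** -/
theorem upper_even (h : IsArray m n k C) (hev : n % 2 = 0) (hn : 2 ≤ n) {p : ℕ}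
    (hp : p.Prime) (hpn : p ∣ n - 1) (hpm : p + 1 ≤ m) : k + 3 ≤ n + m := by
  by_contra hcon
  exact no_prime_even (Pool.Agent.H625R3.PC.IsArray.restrict h (k' := n + m - 2) (by omega))
    hev hn hp hpn hpm (by omega)

end Pool.Agent.J6H77.VS
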